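import Pool.Agent.TS.Defs
import Pool.Agent.MD.S.Defs
import Pool.Agent.H73.AL.Final

/-!
# TS/C-Sgn: the sign from a relation with squares

PLAN.  Let `e X = ± 1` be the sign defect of `X` with `HWpm`: `Lam X s = e X * w X * Lam X (2 - s)` (continued functions; `w = ± 1`: `w_sq`).  Multiply the continued functions of the two sides of the relation: `rel_Lam` (`Re s > 3/2`), identity theorem (entire functions) gives equality everywhere; the functional equations (`rel_w`) give
`e K * ∏ (w X) ... = ...`; all exact fields have `e = 1`, the `Y`, `Z` occur twice, so `e K = 1` (the product is not identically zero: `Lam_ne` for `Re s > 3/2`).  The lists: build the products by list induction as `list_HW` (H73/AL/Final): for `Y ++ Y` the square of the function of each `X ∈ Y` satisfies `HW2`-like functional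
equation with sign `1 = (w X) ^ 2`.
-/

namespace Pool.Agent.TS

open NumberField IsDedekindDomain Pool.Agent.HWR Pool.Agent.QD Pool.Agent.H73.AL Pool.Agent.LD
  Pool.Agent.MD

/-- the product over the squares -/
private theorem sgn_sq {T : Finset ℕ} (D : LocData T) {a : ℕ → ℝ} (C : List NF)
    (hC : ∀ X ∈ C, HWpm D a X.F) :
    ∃ P : ℂ → ℂ, Differentiable ℂ P ∧ (∀ s, P s = P (2 - s)) ∧
      ∀ s : ℂ, 3 / 2 < s.re → P s = (C.map fun X => D.Lam a X.F s).prod ^ 2 := by
  induction C with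
  | nil => exact ⟨fun _ => 1, differentiable_const _, fun _ => rfl, fun s _ => by simp⟩
  | cons X C ih =>
    obtain ⟨P, h1, h2, h3⟩ := ih fun X' hX' => hC X' (List.mem_cons_of_mem _ hX')
    obtain ⟨Q, g1, -, g2, g3⟩ := hC X List.mem_cons_self
    refine ⟨fun s => Q s ^ 2 * P s, (g1.pow 2).mul h1, fun s => ?_, fun s hs => ?_⟩
    · change Q s ^ 2 * P s = Q (2 - s) ^ 2 * P (2 - s)
      rw [h2 s]
      rcases g2 with g2 | g2 <;> rw [g2 s]
      rw [neg_sq]
    · change Q s ^ 2 * P s = _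
      rw [List.map_cons, List.prod_cons, g3 s hs, h3 s hs, mul_pow]

/-- identity theorem -/
private theorem sgn_id {f g : ℂ → ℂ} (hf : Differentiable ℂ f) (hg : Differentiable ℂ g)
    (h : ∀ s : ℂ, 3 / 2 < s.re → f s = g s) : f = g := by
  have hf' : AnalyticOnNhd ℂ f Set.univ := hf.differentiableOn.analyticOnNhd isOpen_univ
  have hg' : AnalyticOnNhd ℂ g Set.univ := hg.differentiableOn.analyticOnNhd isOpen_univ
  refine hf'.eq_of_eventuallyEq hg' (z₀ := 3) ?_
  have hU : {s : ℂ | 3 / 2 < s.re} ∈ nhds (3 : ℂ) := by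
    refine (isOpen_lt continuous_const Complex.continuous_re).mem_nhds ?_
    change (3 / 2 : ℝ) < (3 : ℂ).re
    norm_num
  exact Filter.eventually_of_mem hU h

theorem sgn_rel {T : Finset ℕ} (hTp : ∀ p ∈ T, p.Prime)
    (hT : ∀ p : ℕ, p.Prime → p < 101 → p ∈ T) (D : LocData T) {a : ℕ → ℝ}
    (ha : ∀ q : ℕ, |a q| ≤ 2 * Real.sqrt q) (K F : NF) (A B Y Z : List NF)
    (hK : HWpm D a K.F) (hF : D.HW a F.F) (hAB : ∀ X ∈ A ++ B, D.HW a X.F)
    (hYZ : ∀ X ∈ Y ++ Z, HWpm D a X.F)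
    (h : Rel T (K :: (A ++ (Y ++ Y))) (F :: (B ++ (Z ++ Z)))) : D.HW a K.F := by
  obtain ⟨LK, k1, k2, k3, k4⟩ := hK
  obtain ⟨LF, f1, f2, f3, f4⟩ := hF
  obtain ⟨PA, a1, -, a3, a4, -⟩ := list_HW D hTp hT ha A
    fun X hX => hAB X (List.mem_append.2 (Or.inl hX))
  obtain ⟨PB, b1, -, b3, b4, -⟩ := list_HW D hTp hT ha B
    fun X hX => hAB X (List.mem_append.2 (Or.inr hX))
  obtain ⟨PY, y1, y3, y4⟩ := sgn_sq D (a := a) Y fun X hX => hYZ X (List.mem_append.2 (Or.inl hX))
  obtain ⟨PZ, z1, z3, z4⟩ := sgn_sq D (a := a) Z fun X hX => hYZ X (List.mem_append.2 (Or.inr hX))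
  obtain ⟨δ, hδ⟩ : ∃ δ : ℂ, ∀ s, LK s = δ * LK (2 - s) := by
    rcases k3 with k3 | k3
    · exact ⟨1, fun s => by rw [one_mul]; exact k3 s⟩
    · exact ⟨-1, fun s => by rw [neg_one_mul]; exact k3 s⟩
  have heq : (fun s => LK s * (PA s * PY s)) = fun s => LF s * (PB s * PZ s) := by
    refine sgn_id (k1.mul (a1.mul y1)) (f1.mul (b1.mul z1)) fun s hs => ?_
    have h1 := rel_Lam D hTp hT ha h hs
    simp only [List.map_cons, List.map_append, List.prod_cons, List.prod_append] at h1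
    change LK s * (PA s * PY s) = LF s * (PB s * PZ s)
    rw [k4 s hs, f4 s hs, a4 s hs, b4 s hs, y4 s hs, z4 s hs, sq, sq]
    exact h1
  have hw := rel_w D h
  simp only [List.map_cons, List.map_append, List.prod_cons, List.prod_append] at hw
  rw [← sq, ← sq, w_list D Y, w_list D Z, mul_one, mul_one] at hw
  have hwA : (A.map fun X => D.w X.F).prod ≠ 0 := by
    intro h0
    have h1 := w_list D A
    rw [h0] at h1
    norm_num at h1
  -- the point 3
  have h3 : (3 / 2 : ℝ) < (3 : ℂ).re := by norm_num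
  have hne : LK 3 * (PA 3 * PY 3) ≠ 0 := by
    rw [k4 3 h3, a4 3 h3, y4 3 h3]
    refine mul_ne_zero (Lam_ne D hTp hT ha K.F h3) (mul_ne_zero ?_ (pow_ne_zero 2 ?_))
    · refine List.prod_ne_zero fun h0 => ?_
      obtain ⟨X, _, hX⟩ := List.mem_map.1 h0
      exact Lam_ne D hTp hT ha X.F h3 hX
    · refine List.prod_ne_zero fun h0 => ?_
      obtain ⟨X, _, hX⟩ := List.mem_map.1 h0
      exact Lam_ne D hTp hT ha X.F h3 hX
  have e1 : LK (-1) * (PA (-1) * PY (-1)) = LF (-1) * (PB (-1) * PZ (-1)) := congrFun heq (-1)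
  have e2 : LK 3 * (PA 3 * PY 3) = LF 3 * (PB 3 * PZ 3) := congrFun heq 3
  have h23 : (2 : ℂ) - -1 = 3 := by norm_num
  rw [hδ (-1), a3 (-1), y3 (-1), f3 (-1), b3 (-1), z3 (-1), h23] at e1
  have hδw : δ = D.w K.F := by
    have h5 : (δ - D.w K.F) * ((A.map fun X => D.w X.F).prod * (LK 3 * (PA 3 * PY 3))) = 0 := by
      linear_combination e1 - (LK 3 * (PA 3 * PY 3)) * hw -
        D.w F.F * (B.map fun X => D.w X.F).prod * e2
    exact sub_eq_zero.1 ((mul_eq_zero.1 h5).resolve_right (mul_ne_zero hwA hne))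
  exact ⟨LK, k1, k2, fun s => by rw [← hδw]; exact hδ s, k4⟩

end Pool.Agent.TS
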