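import Mathlib

/-!
# TS/C-Grp: an element normalised by an involution (paper section 9)

PLAN.  Work modulo `N` (in `G ⧸ N`, or with explicit elements).  `c t c⁻¹ ∈ zpowers t ⊔ N`: `c t c⁻¹ = t ^ k * n` with `n ∈ N`.  `s = t * (c t c⁻¹)`: `c s c⁻¹ = (c t c⁻¹) * (c (c t c⁻¹) c⁻¹) = (c t c⁻¹) * t` (`c * c = 1`) `= s` modulo `N` (`c t c⁻¹` commutes with `t` modulo `N`), so `s * c * s⁻¹ * c⁻¹ ∈ N`, `s ∈ NF` by `hcom`.
`r = t * c * t⁻¹ * c⁻¹ ∈ NF` (`c ∈ NF`, `NF` normal).  `s * r = t (c t c⁻¹) t (c t⁻¹ c⁻¹) = t * t` modulo `N`.  So `t * t ∈ NF`; `t ^ q ∈ N ≤ NF`, `q` odd: `t ∈ NF`.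
-/

namespace Pool.Agent.TS

theorem cpx_grp {G : Type} [Group G] (N NF : Subgroup G) [N.Normal] [NF.Normal] (hle : N ≤ NF)
    {c t : G} {q : ℕ} (hc : c * c = 1) (hcF : c ∈ NF) (hq : ¬ 2 ∣ q) (ht : t ^ q ∈ N)
    (hn : c * t * c⁻¹ ∈ Subgroup.zpowers t ⊔ N)
    (hcom : ∀ g : G, g * c * g⁻¹ * c⁻¹ ∈ N → g ∈ NF) : t ∈ NF := by
  have hci : c⁻¹ = c := inv_eq_of_mul_eq_one_right hc
  -- the image of `c t c⁻¹` commutes with the image of `t` modulo `N`
  have hcomm : Commute (QuotientGroup.mk' N (c * t * c⁻¹)) (QuotientGroup.mk' N t) := by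
    rw [Subgroup.mem_sup_of_normal_right] at hn
    obtain ⟨y, hy, z, hz, hyz⟩ := hn
    rw [Subgroup.mem_zpowers_iff] at hy
    obtain ⟨k, rfl⟩ := hy
    have hz1 : QuotientGroup.mk' N z = 1 := by
      rw [QuotientGroup.mk'_apply, QuotientGroup.eq_one_iff]
      exact hz
    rw [← hyz, map_mul, hz1, mul_one, map_zpow]
    exact (Commute.refl _).zpow_left k
  have hcomm' := hcomm.eq
  rw [hci] at hcomm'
  -- `s = t * (c t c⁻¹)` is in `NF`
  have hs : t * (c * t * c) ∈ NF := by
    apply hcom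
    rw [← QuotientGroup.eq_one_iff, ← QuotientGroup.mk'_apply]
    have h1 : t * (c * t * c) * c * (t * (c * t * c))⁻¹ * c⁻¹
        = t * (c * t * c) * ((c * t * c) * t)⁻¹ := by
      have h2 : (c * (t * (c * t * c)) * c) = (c * t * c) * t * (c * c) := by
        have : c * (t * (c * t * c)) * c = c * t * c * t * (c * c) := by group
        exact this
      have h3 : (c * (t * (c * t * c)) * c) = (c * t * c) * t := by
        rw [h2, hc, mul_one]
      rw [← h3, hci]
      simp only [mul_inv_rev, hci]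
      group
    rw [h1, map_mul, map_inv, map_mul _ (c * t * c) t, map_mul _ t (c * t * c), ← hcomm']
    exact mul_inv_cancel _
  have hr : t * c * t⁻¹ * c⁻¹ ∈ NF :=
    NF.mul_mem (Subgroup.Normal.conj_mem inferInstance c hcF t) (NF.inv_mem hcF)
  have hsr := NF.mul_mem hs hr
  -- `s * r = t * t` modulo `N`
  have htt : t * t ∈ NF := by
    have h4 : (t * t)⁻¹ * (t * (c * t * c) * (t * c * t⁻¹ * c⁻¹)) ∈ N := by
      rw [← QuotientGroup.eq_one_iff, ← QuotientGroup.mk'_apply]
      have h5 : t * (c * t * c) * (t * c * t⁻¹ * c⁻¹)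
          = t * ((c * t * c) * t) * (c * t * c)⁻¹ := by
        simp only [mul_inv_rev, hci]
        group
      rw [h5, map_mul, map_mul _ _ (c * t * c)⁻¹, map_mul _ t (c * t * c * t),
        map_mul _ (c * t * c) t, hcomm', map_inv _ (c * t * c), map_inv _ (t * t), map_mul _ t t]
      generalize (QuotientGroup.mk' N) (c * t * c) = w
      group
    have h6 := NF.mul_mem hsr (NF.inv_mem (hle h4))
    have h7 : t * (c * t * c) * (t * c * t⁻¹ * c⁻¹) *
        ((t * t)⁻¹ * (t * (c * t * c) * (t * c * t⁻¹ * c⁻¹)))⁻¹ = t * t := by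
      rw [mul_inv_rev, inv_inv, ← mul_assoc, mul_inv_cancel, one_mul]
    rwa [h7] at h6
  -- odd exponent
  obtain ⟨m, hm⟩ : ∃ m, q = 2 * m + 1 := by
    have : Odd q := by
      rw [← Nat.not_even_iff_odd, even_iff_two_dvd]
      exact hq
    exact this
  have h8 : t ^ q ∈ NF := hle ht
  rw [hm, pow_succ, pow_mul, pow_two] at h8
  exact (NF.mul_mem_cancel_left (NF.pow_mem htt m)).1 h8

/-- an involution without fixed points on an invariant set -/
theorem even_fix {G X : Type} [Group G] [MulAction G X] [Finite X] (N : Subgroup G) (c t : G)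
    (hc : c * c = 1) (hN : ∀ n ∈ N, ∀ x : X, n • x = x)
    (hn : c * t * c⁻¹ ∈ Subgroup.zpowers t ⊔ N) (hfix : ∀ x : X, c • x ≠ x) :
    2 ∣ Nat.card {x : X // t • x = x} := by
  classical
  have hci : c⁻¹ = c := inv_eq_of_mul_eq_one_right hc
  rw [hci] at hn
  have hstab : ∀ x : X, t • x = x → (c * t * c) • x = x := by
    intro x hx
    have h1 : Subgroup.zpowers t ⊔ N ≤ MulAction.stabilizer G x := by
      refine sup_le ?_ ?_
      · rw [Subgroup.zpowers_le, MulAction.mem_stabilizer_iff]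
        exact hx
      · intro n hn'
        rw [MulAction.mem_stabilizer_iff]
        exact hN n hn' x
    exact MulAction.mem_stabilizer_iff.1 (h1 hn)
  have hcc : ∀ x : X, c • c • x = x := by
    intro x
    rw [← mul_smul, hc, one_smul]
  have hinv : ∀ x : X, t • x = x → t • (c • x) = c • x := by
    intro x hx
    have h2 := hstab x hx
    rw [mul_smul, mul_smul] at h2
    have h3 : c • (c • t • c • x) = c • x := by rw [h2]
    rwa [hcc] at h3
  let f : {x : X // t • x = x} → {x : X // t • x = x} := fun x => ⟨c • x.1, hinv x.1 x.2⟩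
  have hf : Function.Involutive f := by
    intro x
    apply Subtype.ext
    exact hcc x.1
  have : Fintype {x : X // t • x = x} := Fintype.ofFinite _
  rw [Nat.card_eq_fintype_card]
  have h9 := Equiv.Perm.card_fixedPoints_modEq (α := {x : X // t • x = x}) (f := f) (p := 2)
    (n := 1) (by
      rw [pow_one, pow_two]
      funext x
      exact hf x)
  have h10 : Fintype.card (Function.fixedPoints f) = 0 := by
    rw [Fintype.card_eq_zero_iff]
    refine ⟨fun x => ?_⟩
    have h11 : f x.1 = x.1 := x.2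
    exact hfix x.1.1 (congrArg Subtype.val h11)
  rw [h10] at h9
  exact (Nat.modEq_zero_iff_dvd).1 h9

end Pool.Agent.TS
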