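import Pool.Agent.TS.A.Alg
import Pool.Agent.THF.L.Cx
import Pool.Agent.TF2.L.Cent2
import Pool.Agent.TS.C.Grp

/-!
# TS/C-Cpx: totally complex fields (paper section 9)

PLAN.  `i`, `c` : `exists_cx` (THF/L/Cx), `IsCx i c`, `c * c = 1`.  `exists_TR (V ∪ T) K`: `F`; `exists_NM`: `N0`; `cent2` (TF2/L: `cent` with a bound for the index): `N1 ≤ N0`; `exists_N` for `NM := N1`: `N`.  `h = mark K - mark F ∈ RC (CN N n)`.  `E H = EvG V T H ∧ ∀ g, g⁻¹ * c * g ∉ H`.
For `U = zpowers t`: `killer` with `NM = N1`: `H`, `a`, `q`; if `E H`: fine.  If `EvG` fails: the second alternative of `killer`: as in `alg_ts`, `h U` is even (elements of `N1 ≤ N0` act trivially).  If `c' = g⁻¹ c g ∈ H` (with `EvG` or not): `c' t' c'⁻¹ ∈ zpowers t' ⊔ N`, `t' = t ^ 2 ^ a`, `t' ^ q ∈ N`, `q` odd.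
`cpx_grp`: then `t'` acts trivially on the embeddings of `F`, so `mark F (zpowers t') = n`, which is even (`K` totally complex: `n = 2 r2`), and `mark K (zpowers t')` is even: `c'` permutes the embeddings of `K` fixed by `t'` (`c' t' c'⁻¹` is a power of `t'` times an element of `N`, acting trivially) without fixed points (an
embedding fixed by `c'` would be real for a conjugate of `i`; `mark_cx`: `mark K (zpowers c) = nrRealPlaces = 0`, `mark_cj`), `c' * c' = 1`.  Then `lemK`, and lists.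
-/

namespace Pool.Agent.TS

open NumberField IsDedekindDomain Pool.Agent.HWR Pool.Agent.H73.DU Pool.Agent.H73.AL
  Pool.Agent.LD

/-- bound for the degrees in the totally complex case -/
def bK (n : ℕ) : ℕ := (bM n * 2 ^ bM n ^ 2) * 2 ^ (bM n * 2 ^ bM n ^ 2)

/-- the elements acting trivially on the embeddings of `F` -/
def cxK (F : NF) : Subgroup GQ where
  carrier := {g | ∀ χ : F.F →+* AlgebraicClosure ℚ, g • χ = χ}
  mul_mem' := by
    intro a b ha hb χ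
    rw [mul_smul, hb χ, ha χ]
  one_mem' := fun χ => one_smul _ χ
  inv_mem' := by
    intro a ha χ
    rw [inv_smul_eq_iff]
    exact (ha χ).symm

instance cxK_normal (F : NF) : (cxK F).Normal where
  conj_mem := by
    intro n hn g χ
    rw [mul_smul, mul_smul, hn (g⁻¹ • χ), smul_inv_smul]

theorem cx_two {NM : Subgroup GQ} (F : NF)
    (h : ∀ g ∈ NM, ∀ χ : F.F →+* AlgebraicClosure ℚ, g • χ = χ) (t : GQ) (a : ℕ) :
    (2 : ℤ) ∣ mark F.F (Subgroup.zpowers t) - mark F.F (Subgroup.zpowers (t ^ 2 ^ a)) := by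
  obtain ⟨J, hJo, -, -, hJm⟩ := exists_over NM F h
  have := (nice_rat ∅).fin hJo
  rw [hJm]
  exact pc_mod J t a

theorem cx_even {V T : Finset ℕ} (K F : NF) (NM : Subgroup GQ)
    (hFm : ∀ (p : ℕ) [Fact p.Prime], p ∈ V ∪ T → ∀ U : Subgroup GQ,
        (∃ a : GQ, cj a U ≤ decomp ℚ_[p] (emb p)) → mark K.F U = mark F.F U)
    (hNMt : ∀ g ∈ NM, (∀ χ : K.F →+* AlgebraicClosure ℚ, g • χ = χ) ∧
        ∀ χ : F.F →+* AlgebraicClosure ℚ, g • χ = χ) (t : GQ) (a : ℕ) (p : ℕ)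
    (hp : Fact p.Prime) (hpV : p ∈ V) (g d : GQ) (hd : d ∈ decomp ℚ_[p] (emb p))
    (hgd : d⁻¹ * (g⁻¹ * t ^ 2 ^ a * g) ∈ NM) :
    (2 : ℤ) ∣ (mark K.F - mark F.F) (Subgroup.zpowers t) := by
  have e1 : cj g (Subgroup.zpowers (t ^ 2 ^ a)) = Subgroup.zpowers (g⁻¹ * t ^ 2 ^ a * g) := by
    unfold cj
    rw [MonoidHom.map_zpowers]
    simp
  have e2 : ∀ X : NF, (∀ g ∈ NM, ∀ χ : X.F →+* AlgebraicClosure ℚ, g • χ = χ) →
      mark X.F (Subgroup.zpowers (t ^ 2 ^ a)) = mark X.F (Subgroup.zpowers d) := by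
    intro X hX
    rw [← Pool.Agent.THF.mark_cj X.F g, e1]
    exact mark_congr NM X hX hgd
  have e3 : mark K.F (Subgroup.zpowers d) = mark F.F (Subgroup.zpowers d) := by
    refine hFm p (Finset.mem_union_left _ hpV) _ ⟨1, ?_⟩
    rw [cj_one, Subgroup.zpowers_le]
    exact hd
  have e4 := cx_two K (fun g hg => (hNMt g hg).1) t a
  have e5 := cx_two F (fun g hg => (hNMt g hg).2) t a
  have e6 := e2 K (fun g hg => (hNMt g hg).1)
  have e7 := e2 F (fun g hg => (hNMt g hg).2)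
  rw [Pi.sub_apply]
  have e8 : mark K.F (Subgroup.zpowers t) - mark F.F (Subgroup.zpowers t) =
      (mark K.F (Subgroup.zpowers t) - mark K.F (Subgroup.zpowers (t ^ 2 ^ a))) -
      (mark F.F (Subgroup.zpowers t) - mark F.F (Subgroup.zpowers (t ^ 2 ^ a))) := by
    rw [e6, e7, e3]
    ring
  rw [e8]
  exact dvd_sub e4 e5

theorem cx_card (F : NF) : Nat.card (F.F →+* AlgebraicClosure ℚ) =
    Module.finrank ℚ F.F := by
  rw [Nat.card_eq_fintype_card]
  exact Embeddings.card F.F (AlgebraicClosure ℚ)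

theorem cx_mark (F : NF) (t : GQ) : mark F.F (Subgroup.zpowers t) =
    (Nat.card {χ : F.F →+* AlgebraicClosure ℚ // t • χ = χ} : ℤ) := by
  unfold mark pch
  congr 1
  exact Nat.card_congr (Equiv.subtypeEquivRight fun χ => fx_zpowers)

/-- complex conjugation acts trivially on the embeddings of a totally real field -/
theorem cx_tr {i : AlgebraicClosure ℚ →+* ℂ} {c : GQ} (hc : Pool.Agent.THF.IsCx i c)
    (F : NF) (hF : InfinitePlace.nrComplexPlaces F.F = 0) : c ∈ cxK F := by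
  have h1 := Pool.Agent.THF.mark_cx hc F.F
  rw [cx_mark] at h1
  have h2 := InfinitePlace.card_add_two_mul_card_eq_rank F.F
  rw [hF, mul_zero, add_zero] at h2
  have h3 : Nat.card {χ : F.F →+* AlgebraicClosure ℚ // c • χ = χ} =
      Nat.card (F.F →+* AlgebraicClosure ℚ) := by
    rw [cx_card, ← h2]
    exact_mod_cast h1
  intro χ
  by_contra hne
  have h4 : Nat.card {χ : F.F →+* AlgebraicClosure ℚ // c • χ = χ} <
      Nat.card (F.F →+* AlgebraicClosure ℚ) := by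
    classical
    rw [Nat.card_eq_fintype_card, Nat.card_eq_fintype_card]
    exact Fintype.card_subtype_lt hne
  omega

theorem cx_par {i : AlgebraicClosure ℚ →+* ℂ} {c : GQ} (hc : Pool.Agent.THF.IsCx i c)
    (K F : NF) (hK : InfinitePlace.nrRealPlaces K.F = 0)
    (hF : InfinitePlace.nrComplexPlaces F.F = 0)
    (hn : Module.finrank ℚ F.F = Module.finrank ℚ K.F) (N0 N1 N : Subgroup GQ) [N1.Normal]
    [N.Normal] (hN0 : ∀ g ∈ N0, (∀ χ : K.F →+* AlgebraicClosure ℚ, g • χ = χ) ∧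
        ∀ χ : F.F →+* AlgebraicClosure ℚ, g • χ = χ) (h10 : N1 ≤ N0) (hN1 : N ≤ N1)
    (hcent : ∀ g : GQ, g * c * g⁻¹ * c⁻¹ ∈ N1 → g ∈ N0 ∨ g * c⁻¹ ∈ N0) (t : GQ) (a q : ℕ)
    (hq : ¬ 2 ∣ q) (ht : (t ^ 2 ^ a) ^ q ∈ N) (g : GQ)
    (hg : (g⁻¹ * c * g) * t ^ 2 ^ a * (g⁻¹ * c * g)⁻¹ ∈ Subgroup.zpowers (t ^ 2 ^ a) ⊔ N) :
    (2 : ℤ) ∣ (mark K.F - mark F.F) (Subgroup.zpowers t) := by
  obtain ⟨t', ht'⟩ : ∃ t', t' = t ^ 2 ^ a := ⟨_, rfl⟩
  have hcc : c * c = 1 := Pool.Agent.THF.cx_sq hc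
  have hcF : c ∈ cxK F := cx_tr hc F hF
  have hcF' : g⁻¹ * c * g ∈ cxK F := by
    have h1 := (inferInstance : (cxK F).Normal).conj_mem c hcF g⁻¹
    rwa [inv_inv] at h1
  have hcc' : (g⁻¹ * c * g) * (g⁻¹ * c * g) = 1 := by
    have h1 : (g⁻¹ * c * g) * (g⁻¹ * c * g) = g⁻¹ * (c * c) * g := by group
    rw [h1, hcc]
    group
  have hNF : N ≤ cxK F := fun x hx χ => (hN0 x (h10 (hN1 hx))).2 χ
  have hcom : ∀ s : GQ, s * (g⁻¹ * c * g) * s⁻¹ * (g⁻¹ * c * g)⁻¹ ∈ N → s ∈ cxK F := by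
    intro s hs
    have h1 := (inferInstance : N1.Normal).conj_mem _ (hN1 hs) g
    have h2 : g * (s * (g⁻¹ * c * g) * s⁻¹ * (g⁻¹ * c * g)⁻¹) * g⁻¹ =
        (g * s * g⁻¹) * c * (g * s * g⁻¹)⁻¹ * c⁻¹ := by group
    rw [h2] at h1
    have h3 : g * s * g⁻¹ ∈ cxK F := by
      rcases hcent _ h1 with h4 | h4
      · exact fun χ => (hN0 _ h4).2 χ
      · have h5 : g * s * g⁻¹ * c⁻¹ ∈ cxK F := fun χ => (hN0 _ h4).2 χ
        have h6 := (cxK F).mul_mem h5 hcF
        rwa [inv_mul_cancel_right] at h6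
    have h7 := (inferInstance : (cxK F).Normal).conj_mem _ h3 g⁻¹
    have h8 : g⁻¹ * (g * s * g⁻¹) * g⁻¹⁻¹ = s := by group
    rwa [h8] at h7
  have htF : t' ∈ cxK F := by
    rw [ht']
    exact cpx_grp N (cxK F) hNF hcc' hcF' hq ht hg hcom
  have hrk := InfinitePlace.card_add_two_mul_card_eq_rank K.F
  rw [hK, zero_add] at hrk
  have hFt : mark F.F (Subgroup.zpowers t') = (Module.finrank ℚ K.F : ℤ) := by
    rw [cx_mark, ← hn, ← cx_card]
    congr 1
    exact Nat.card_congr (Equiv.subtypeUnivEquiv fun χ => htF χ)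
  have hKt : (2 : ℤ) ∣ mark K.F (Subgroup.zpowers t') := by
    rw [cx_mark]
    have h1 := even_fix (X := K.F →+* AlgebraicClosure ℚ) N (g⁻¹ * c * g) t' hcc'
      (fun n hn χ => (hN0 n (h10 (hN1 hn))).1 χ) (by rw [ht']; exact hg) (by
        intro χ hχ
        have h2 := Pool.Agent.THF.mark_cx hc K.F
        rw [hK, cx_mark] at h2
        have h3 : c • (g • χ) = g • χ := by
          rw [mul_smul, mul_smul, inv_smul_eq_iff] at hχ
          exact hχ
        have h4 : Nat.card {χ : K.F →+* AlgebraicClosure ℚ // c • χ = χ} ≠ 0 := by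
          have : Nonempty {χ : K.F →+* AlgebraicClosure ℚ // c • χ = χ} := ⟨⟨_, h3⟩⟩
          exact Nat.card_pos.ne'
        exact h4 (by exact_mod_cast h2))
    exact_mod_cast h1
  have e4 := cx_two (NM := N0) K (fun g hg => (hN0 g hg).1) t a
  have e5 := cx_two (NM := N0) F (fun g hg => (hN0 g hg).2) t a
  rw [← ht'] at e4 e5
  have hF2 : (2 : ℤ) ∣ mark F.F (Subgroup.zpowers t') := by
    rw [hFt, ← hrk]
    push_cast
    exact Dvd.intro _ rfl
  rw [Pi.sub_apply]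
  exact dvd_sub ((dvd_sub_left hKt).1 e4) ((dvd_sub_left hF2).1 e5)

private def CP (V T : Finset ℕ) (n B : ℕ) (f : Subgroup GQ → ℤ) : Prop :=
  ∃ A B' Y Z : List NF,
    (∀ X ∈ Y ++ Z, n ∣ Module.finrank ℚ X.F ∧ Module.finrank ℚ X.F ≤ B) ∧
    (∀ X ∈ A ++ B', n ∣ Module.finrank ℚ X.F ∧ Module.finrank ℚ X.F ≤ B ∧
      ((IsEmpty (X.F →+* ℝ) ∧ EvV V T X.F) ∨
        ∃ (X0 : NF) (_ : Algebra X0.F X.F), Module.finrank X0.F X.F = 2)) ∧
    ∀ U ∈ famT T, f U + (A.map fun F => mark F.F U).sum + 2 * (Y.map fun F => mark F.F U).sum =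
      (B'.map fun F => mark F.F U).sum + 2 * (Z.map fun F => mark F.F U).sum

private def CPs (V T : Finset ℕ) (n B : ℕ) : AddSubgroup (Subgroup GQ → ℤ) where
  carrier := {f | CP V T n B f}
  zero_mem' := ⟨[], [], [], [], by simp, by simp, by simp⟩
  add_mem' := by
    rintro f g ⟨A, B1, Y, Z, h1, h2, h3⟩ ⟨A', B1', Y', Z', h1', h2', h3'⟩
    refine ⟨A ++ A', B1 ++ B1', Y ++ Y', Z ++ Z', ?_, ?_, ?_⟩
    · intro X hX
      simp only [List.mem_append] at hX h1 h1'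
      rcases hX with (h | h) | (h | h)
      · exact h1 X (Or.inl h)
      · exact h1' X (Or.inl h)
      · exact h1 X (Or.inr h)
      · exact h1' X (Or.inr h)
    · intro X hX
      simp only [List.mem_append] at hX h2 h2'
      rcases hX with (h | h) | (h | h)
      · exact h2 X (Or.inl h)
      · exact h2' X (Or.inl h)
      · exact h2 X (Or.inr h)
      · exact h2' X (Or.inr h)
    · intro U hU
      have e1 := h3 U hU
      have e2 := h3' U hU
      simp only [List.map_append, List.sum_append, Pi.add_apply]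
      linarith
  neg_mem' := by
    rintro f ⟨A, B1, Y, Z, h1, h2, h3⟩
    refine ⟨B1, A, Z, Y, ?_, ?_, ?_⟩
    · intro X hX
      simp only [List.mem_append] at hX h1
      exact h1 X hX.symm
    · intro X hX
      simp only [List.mem_append] at hX h2
      exact h2 X hX.symm
    · intro U hU
      have e1 := h3 U hU
      simp only [Pi.neg_apply]
      linarith

private theorem cx_lists {V T : Finset ℕ} {i : AlgebraicClosure ℚ →+* ℂ} {c : GQ}
    (hc : Pool.Agent.THF.IsCx i c) (N : Subgroup GQ) [N.FiniteIndex]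
    (hNo : IsOpen (N : Set GQ)) (n B : ℕ) (hB : N.index ≤ B) :
    MC (CN N n) (famT T) ⊔
      RC {H | H ∈ CN N n ∧ (EvG V T H ∧ ∀ g : GQ, g⁻¹ * c * g ∉ H)} ≤ CPs V T n B := by
  have hidx : ∀ H : Subgroup GQ, N ≤ H → H.index ≤ B := fun H h =>
    (Nat.le_of_dvd (Nat.pos_of_ne_zero Subgroup.FiniteIndex.index_ne_zero)
      (Subgroup.index_dvd_of_le h)).trans hB
  have hop : ∀ H : Subgroup GQ, N ≤ H → IsOpen (H : Set GQ) := fun H h =>
    Subgroup.isOpen_mono h hNo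
  refine sup_le ?_ ?_
  · unfold MC
    rw [AddSubgroup.closure_le]
    rintro f (⟨H, hH, rfl⟩ | ⟨H, hH, ⟨Y, hY, hY2⟩, rfl⟩ | hf)
    · obtain ⟨F, ψ, -, hm, hi⟩ := exists_nf H (hop H hH.1)
      refine ⟨[], [], [], [F], ?_, by simp, ?_⟩
      · intro X hX
        simp only [List.nil_append, List.mem_singleton] at hX
        subst hX
        rw [hi]
        exact ⟨hH.2, hidx H hH.1⟩
      · intro U _
        simp [hm]
    · obtain ⟨X0, ψ0, hs0, -, hi0⟩ := exists_nf Y (hop Y (hH.1.trans hY))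
      have hi2 : H.index = 2 * (stb ψ0).index := by
        rw [hs0, ← hY2]
        exact (Subgroup.relIndex_mul_index hY).symm
      obtain ⟨F, hA, ψ, -, -, hm, hfr⟩ := exists_fld X0 ψ0 H (hop H hH.1) (by rw [hs0]; exact hY)
        hi2
      have hi : Module.finrank ℚ F.F = H.index := by
        rw [← Module.finrank_mul_finrank ℚ X0.F F.F, hfr, hi0, hi2, hs0, mul_comm]
      refine ⟨[], [F], [], [], by simp, ?_, ?_⟩
      · intro X hX
        simp only [List.nil_append, List.mem_singleton] at hX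
        subst hX
        rw [hi]
        exact ⟨hH.2, hidx H hH.1, Or.inr ⟨X0, hA, hfr⟩⟩
      · intro U _
        simp [hm]
    · exact ⟨[], [], [], [], by simp, by simp, fun U hU => by simp [hf U hU]⟩
  · unfold RC
    rw [AddSubgroup.closure_le]
    rintro f ⟨H, ⟨hH, hE, hcH⟩, rfl⟩
    obtain ⟨F, ψ, hs, hm, hi⟩ := exists_nf H (hop H hH.1)
    refine ⟨[], [F], [], [], by simp, ?_, ?_⟩
    · intro X hX
      simp only [List.nil_append, List.mem_singleton] at hX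
      subst hX
      rw [hi]
      refine ⟨hH.2, hidx H hH.1, Or.inl ⟨?_, hE X ψ hs.le⟩⟩
      exact Pool.Agent.THF.tc_of hc X.F ψ (fun g => by rw [hs]; exact hcH g)
    · intro U _
      simp [hm]

theorem alg_tc {T : Finset ℕ} (V : Finset ℕ) (hTp : ∀ p ∈ T, p.Prime) (h2 : 2 ∈ T) (K : NF)
    (hK : InfinitePlace.nrRealPlaces K.F = 0) :
    ∃ (F : NF) (A B Y Z : List NF), InfinitePlace.nrComplexPlaces F.F = 0 ∧
      Module.finrank ℚ F.F = Module.finrank ℚ K.F ∧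
      Rel T (K :: (A ++ (Y ++ Y))) (F :: (B ++ (Z ++ Z))) ∧
      (∀ X ∈ Y ++ Z, Module.finrank ℚ K.F ∣ Module.finrank ℚ X.F ∧
        Module.finrank ℚ X.F ≤ bK (Module.finrank ℚ K.F)) ∧
      ∀ X ∈ A ++ B, Module.finrank ℚ K.F ∣ Module.finrank ℚ X.F ∧
        Module.finrank ℚ X.F ≤ bK (Module.finrank ℚ K.F) ∧
        ((IsEmpty (X.F →+* ℝ) ∧ EvV V T X.F) ∨
          ∃ (X0 : NF) (_ : Algebra X0.F X.F), Module.finrank X0.F X.F = 2) := by
  classical
  obtain ⟨i, c, hc⟩ := Pool.Agent.THF.exists_cx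
  obtain ⟨F, hF0, hFn, hFm⟩ := exists_TR (V ∪ T) K
  obtain ⟨N0, hN0n, hN0o, hN0i, hN0t⟩ := exists_NM K F (Module.finrank ℚ K.F) rfl hFn
  have hfin0 : N0.FiniteIndex := (nice_rat T).finiteIndex hN0o
  obtain ⟨N1, hN1o, hN1n, h10, hN1i, hcent⟩ := Pool.Agent.TF2.cent2 hc N0 hN0o hN0n hfin0
  obtain ⟨N, hNn, hNo, hNle, hNsq, hNi, hNu⟩ := exists_N (V := V) hTp h2 N1 hN1o
  have hfin : N.FiniteIndex := (nice_rat T).finiteIndex hNo
  have hh : mark K.F - mark F.F ∈ RC (CN N (Module.finrank ℚ K.F)) := by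
    obtain ⟨JK, -, hJKN, hJKi, hJKm⟩ := exists_over N0 K (fun g hg => (hN0t g hg).1)
    obtain ⟨JF, -, hJFN, hJFi, hJFm⟩ := exists_over N0 F (fun g hg => (hN0t g hg).2)
    refine AddSubgroup.sub_mem _ ?_ ?_
    · exact AddSubgroup.subset_closure ⟨JK, ⟨(hNle.trans h10).trans hJKN, by rw [hJKi]⟩, hJKm⟩
    · exact AddSubgroup.subset_closure
        ⟨JF, ⟨(hNle.trans h10).trans hJFN, by rw [hJFi, hFn]⟩, hJFm⟩
  have hU : ∀ U ∈ famT T, (2 : ℤ) ∣ (mark K.F - mark F.F) U ∨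
      ∃ H : Subgroup GQ, N ≤ H ∧ (EvG V T H ∧ ∀ g : GQ, g⁻¹ * c * g ∉ H) ∧
        ¬ (2 : ℤ) ∣ pc H U := by
    rintro U (⟨t, rfl⟩ | ⟨l, hl, a, hlT, hU⟩)
    · obtain ⟨a, q, H, hq, htq, hNH, hodd, hnorm, hor⟩ := killer N1 N hNo hNsq hNu t
      by_cases hcH : ∃ g : GQ, g⁻¹ * c * g ∈ H
      · left
        obtain ⟨g, hg⟩ := hcH
        exact cx_par hc K F hK hF0 hFn N0 N1 N hN0t h10 hNle hcent t a q hq htq g (hnorm _ hg)
      · rcases hor with h | ⟨p, hp, hpV, hpT, g, d, hd, hgd⟩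
        · exact Or.inr ⟨H, hNH, ⟨h, fun g hg => hcH ⟨g, hg⟩⟩, hodd⟩
        · exact Or.inl (cx_even K F N1 hFm (fun g hg => hN0t g (h10 hg)) t a p hp hpV g d hd hgd)
    · left
      rw [Pi.sub_apply, hFm l (Finset.mem_union_right _ hlT) U ⟨a, hU⟩, sub_self]
      exact dvd_zero _
  have hKm := lemK N (Module.finrank ℚ K.F)
    (fun H => EvG V T H ∧ ∀ g : GQ, g⁻¹ * c * g ∉ H)
    (fun H H' h h' => ⟨EvG.mono h'.1 h, fun g hg => h'.2 g (h hg)⟩)
    (fun H b h => ⟨EvG.cj h.1 b, fun g hg => by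
      obtain ⟨u, hu, hu'⟩ := mem_cj_iff.1 hg
      have h3 : u = (g * b⁻¹)⁻¹ * c * (g * b⁻¹) := by
        have h4 : u = b * (b⁻¹ * u * b) * b⁻¹ := by group
        rw [h4, hu']
        group
      exact h.2 _ (h3 ▸ hu)⟩) (famT T) hh hU
  have hB : N.index ≤ bK (Module.finrank ℚ K.F) := by
    unfold bK
    have h1 : N1.index ≤ bM (Module.finrank ℚ K.F) * 2 ^ bM (Module.finrank ℚ K.F) ^ 2 :=
      hN1i.trans (Nat.mul_le_mul hN0i (Nat.pow_le_pow_right (by norm_num)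
        (Nat.pow_le_pow_left hN0i 2)))
    exact hNi.trans (Nat.mul_le_mul h1 (Nat.pow_le_pow_right (by norm_num) h1))
  obtain ⟨A, B, Y, Z, h1, h3, hrel⟩ := cx_lists hc N hNo (Module.finrank ℚ K.F)
    (bK (Module.finrank ℚ K.F)) hB hKm
  refine ⟨F, A, B, Y, Z, hF0, hFn, ?_, h1, h3⟩
  intro U hUT
  have h5 := hrel U hUT
  rw [Pi.sub_apply] at h5
  simp only [List.map_cons, List.sum_cons, List.map_append, List.sum_append]
  linarith

end Pool.Agent.TS
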